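import Pool.Agent.Y638.RF.ZeroSum
import Pool.Agent.Y649.DG.ThreeSum

set_option autoImplicit false

/-! # 3SUM (`a + b = c`) and branching programs which test real formulas -/

namespace Pool.Agent.X240.TS

open Finset Pool.Agent.TH697.Form Pool.Agent.TH697.Row Pool.Agent.TH697.Form.ThreeSum
open Pool.Agent.TH457.Ary.ThreeSum
open Pool.Agent.Y638.RF Pool.Agent.Y638.RF.ZeroSum
open Pool.Agent.Y649.DG.ThreeSum (asks)

variable {n c w : ℕ}

theorem program_bound (hn : 1000 ≤ n) (hc : 1 ≤ c) (hw : 1 ≤ w) {Ω : Type} [Fintype Ω] (μ : Ω → ℝ)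
    (hμ : IsProb μ) (s : ℕ) (F : Ω → Program (Option (Fin n)) (Item n n) w ((2 * n) ^ c) s)
    (hF : ApproximatesOn μ (fun ω => (F ω).eval) (Valid n n) (threeSum n n)) :
    (n : ℝ) ^ 2 ≤ 14000 * c * w ^ 2 * s := by
  classical
  have hw' : (1 : ℝ) ≤ w := by exact_mod_cast hw
  have hc' : (1 : ℝ) ≤ c := by exact_mod_cast hc
  have hs0 : (0 : ℝ) ≤ s := Nat.cast_nonneg s
  by_cases hsn : n ^ 2 ≤ s
  · have h1 : (n : ℝ) ^ 2 ≤ s := by exact_mod_cast hsn
    have h2 : (1 : ℝ) ≤ w ^ 2 := by nlinarith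
    have h3 : (1 : ℝ) ≤ c * w ^ 2 := by nlinarith
    nlinarith
  obtain ⟨b, hb, hL, hb2⟩ := params (n := n) (by omega)
  have hM : 4 * n ^ 2 * (2 * s + 1) + 2 + s ≤ n ^ 5 := by
    have h1 : s < n ^ 2 := by omega
    have h2 : 4 * n ^ 2 * (2 * s + 1) ≤ 4 * n ^ 2 * (2 * n ^ 2) := Nat.mul_le_mul_left _ (by omega)
    have h3 : 4 * n ^ 2 * (2 * n ^ 2) = 8 * n ^ 4 := by ring
    have h4 : n ^ 2 ≤ n ^ 4 := Nat.pow_le_pow_right (by omega) (by norm_num)
    have h5 : 16 * n ^ 4 ≤ n ^ 5 := by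
      calc 16 * n ^ 4 ≤ n * n ^ 4 := Nat.mul_le_mul_right _ (by omega)
        _ = n ^ 5 := by ring
    have h6 : 1 ≤ n ^ 4 := Nat.one_le_pow _ _ (by omega)
    omega
  have h := program_lower μ hμ s F (Valid n n) (threeSum n n) hF
    (Nat.one_le_pow _ _ (by omega)) hw (n ^ 2) (n ^ 5) hM 0
    ((univ : Finset (Fin n)).map Function.Embedding.some) (T := Fin (n / 2) × Fin b) (by
      intro a ha
      rw [mem_map] at ha
      obtain ⟨i, -, rfl⟩ := ha
      exact asks hb (by omega) i)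
  rw [card_map, card_univ, Fintype.card_fin, Nat.cast_pow n 5] at h
  rw [Real.logb_pow] at h
  push_cast at h
  refine arith_program (l := Real.logb 2 n) (L := Real.logb 2 (((2 * n) ^ c : ℕ) : ℝ))
    (g := Nat.log 2 n) (N := ((Fintype.card (Fin (n / 2) × Fin b) : ℕ) : ℝ))
    (by exact_mod_cast hn) (by exact_mod_cast hL) hc' hw' (card_T (by omega) hb2) ?_
    (logb_q (by omega) hL) hs0 ?_
  · have h1 := logb_n (n := n) (by omega)
    have hL' : (8 : ℝ) ≤ Nat.log 2 n := by exact_mod_cast hL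
    linarith
  · push_cast
    exact h

end Pool.Agent.X240.TS
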