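import Pool.Agent.Y638.WF.ThreeSum
import Pool.Agent.Y638.RF.ZeroSum

set_option autoImplicit false

/-! # 3SUM (sum zero) and integral formulas -/

namespace Pool.Agent.X240.TS

open Finset Pool.Agent.TH697.Form Pool.Agent.TH697.Row Pool.Agent.TH697.Form.ThreeSum
open Pool.Agent.TH457.Ary.ZeroSum Pool.Agent.TH457.Ary.ThreeSum

variable {n b c w v : ℕ}

theorem word_asks (hb : 2 * (b * 2 ^ b) ≤ n) (hn : 400 ≤ n) (i : Fin n) :
    Pool.Agent.Y638.WF.Asks (Fin (n / 2) × Fin b) 0 (Valid n n) (zeroSum n) (some i) := by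
  classical
  refine Pool.Agent.Y638.WF.asks_of (Set.range (fun t : Fin (n / 2) × Fin b => ask n t))
    (fun _ => 0) (fun t _ => ask n t) (fun z => flip (enc z)) ?_ ?_ ?_ ?_
  · exact fun t z => ⟨t, rfl⟩
  · exact fun t z z' _ => rfl
  · rintro _ ⟨t, rfl⟩ z
    rw [← flip_update]
    exact valid_flip i t z hb hn
  · have h : ∀ (t : Fin (n / 2) × Fin b) (z : Fin (n / 2) × Fin b → Bool),
        zeroSum n (Function.update (flip (enc z)) (some i) (ask n t)) = z t := by
      intro t z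
      rw [← flip_update]
      exact zeroSum_flip i t z hb
    simp only [h, ne_eq, not_true_eq_false, filter_false, card_empty]
    simp

theorem word_bound (hn : 400 ≤ n) (hc : 1 ≤ c) (hw : 1 ≤ w) (hv : 1 ≤ v) {Ω : Type} [Fintype Ω]
    (μ : Ω → ℝ) (hμ : IsProb μ) (s : ℕ)
    (F : Ω → Pool.Agent.Y638.WF.Program (Option (Fin n)) (Item n n) w ((2 * n) ^ c) ((2 * n) ^ v)
      (Valid n n) s)
    (hF : ApproximatesOn μ (fun ω => (F ω).eval) (Valid n n) (zeroSum n)) :
    (n : ℝ) ^ 2 ≤ 6000 * w * (v + c * w) * s := by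
  classical
  have hw' : (1 : ℝ) ≤ w := by exact_mod_cast hw
  have hc' : (1 : ℝ) ≤ c := by exact_mod_cast hc
  have hv' : (1 : ℝ) ≤ v := by exact_mod_cast hv
  have hs0 : (0 : ℝ) ≤ s := Nat.cast_nonneg s
  by_cases hsn : n ^ 2 ≤ s
  · have h1 : (n : ℝ) ^ 2 ≤ s := by exact_mod_cast hsn
    have h3 : (0 : ℝ) ≤ c * w := by positivity
    have h2 : (1 : ℝ) ≤ w * (v + c * w) := one_le_mul_of_one_le_of_one_le hw' (by linarith)
    nlinarith
  obtain ⟨b, hb, hL, hb2⟩ := Pool.Agent.TH457.Ary.ThreeSum.params hn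
  have h := Pool.Agent.Y638.WF.program_lower μ hμ ((2 * n) ^ v) s (Valid n n) F (zeroSum n) hF
    (Nat.one_le_pow _ _ (by omega)) (Nat.one_le_pow _ _ (by omega)) hw 0
    ((univ : Finset (Fin n)).map Function.Embedding.some) (T := Fin (n / 2) × Fin b) (by
      intro a ha
      rw [mem_map] at ha
      obtain ⟨i, -, rfl⟩ := ha
      exact word_asks hb hn i)
  rw [card_map, card_univ, Fintype.card_fin] at h
  exact Pool.Agent.Y638.WF.ThreeSum.arith (by exact_mod_cast hn) (by exact_mod_cast hL) hc' hw' hv'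
    (card_T hn hb2) (Pool.Agent.Y638.WF.ThreeSum.logb_small (by omega) hL)
    (logb_s (by omega) hL (by omega)) (logb_q (by omega) hL) hs0 h

end Pool.Agent.X240.TS
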